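import Mathlib
import Pool.Agent.H.MP_d26497_an.E

set_option autoImplicit false

namespace Pool.Agent.Results.MP_d26497_an.Counter

open MeasureTheory
open scoped ComplexConjugate InnerProductSpace

/-- Gaussian measure on the two-dimensional complex space -/
noncomputable def mu : Measure (ℂ × ℂ) :=
  (volume : Measure (ℂ × ℂ)).withDensity
    fun z => ENNReal.ofReal (Real.exp (-(‖z.1‖ ^ 2 + ‖z.2‖ ^ 2)))

/-- square integrable classes with an entire representative -/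
def entire : Set (Lp ℂ 2 mu) :=
  {f | ∃ F : ℂ × ℂ → ℂ, AnalyticOnNhd ℂ F Set.univ ∧ ⇑f =ᵐ[mu] F}

/-- u is the product of the symbol and f -/
def IsMul (φ : ℂ × ℂ → ℂ) (f u : Lp ℂ 2 mu) : Prop := ⇑u =ᵐ[mu] fun z => φ z * f z

/-- closed linear span -/
def clSpan {Y : Type} [NormedAddCommGroup Y] [InnerProductSpace ℂ Y] (S : Set Y) :
    Submodule ℂ Y := (Submodule.span ℂ S).topologicalClosure

/-- graph of the compression of a relation to a subspace -/
def graph {Y : Type} [NormedAddCommGroup Y] [InnerProductSpace ℂ Y] (K : Submodule ℂ Y)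
    (M : Y → Y → Prop) : Set (K × K) :=
  {p | ∃ u : Y, M p.1 u ∧ ∀ h ∈ K, ⟪h, u - p.2⟫_ℂ = 0}

/-- the operator whose graph is the closure of G has compact resolvent -/
def ClosureCompactRes {Z : Type} [NormedAddCommGroup Z] [InnerProductSpace ℂ Z]
    (G : Set (Z × Z)) : Prop :=
  ∃ (c : ℂ) (R : Z →L[ℂ] Z), IsCompactOperator R ∧ Function.Injective R ∧
    ∀ f g : Z, (f, g) ∈ closure G ↔ R (c • f - g) = f

/-- compression with compact resolvent -/
def CompressionCompactRes {Y : Type} [NormedAddCommGroup Y] [InnerProductSpace ℂ Y] (S : Set Y)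
    (M : Y → Y → Prop) : Prop := ClosureCompactRes (graph (clSpan S) M)

/-- the closure of the Toeplitz operator has compact resolvent -/
def CompactRes (φ : ℂ × ℂ → ℂ) : Prop := CompressionCompactRes entire (IsMul φ)

/-- polynomial in z and its conjugate -/
noncomputable def sym (p : MvPolynomial (Fin 4) ℂ) (z : ℂ × ℂ) : ℂ :=
  MvPolynomial.eval ![z.1, z.2, conj z.1, conj z.2] p

open MvPolynomial in
theorem result : ∃ (N : ℕ) (ψ φ₁ : MvPolynomial (Fin 4) ℂ), 1 ≤ N ∧ ψ.IsHomogeneous N ∧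
    φ₁.totalDegree < N ∧ CompactRes (sym ψ) ∧ ¬ CompactRes (sym (ψ + φ₁)) := by
  refine ⟨8, X 0 ^ 2 * X 1 ^ 2 * X 2 ^ 2 * X 3 ^ 2, C (-2) * (X 0 ^ 2 * X 2 ^ 2), by norm_num,
    (((isHomogeneous_X_pow 0 2).mul (isHomogeneous_X_pow 1 2)).mul
      (isHomogeneous_X_pow 2 2)).mul (isHomogeneous_X_pow 3 2), ?_, ?_, ?_⟩
  · have := (((isHomogeneous_X_pow (R := ℂ) (0 : Fin 4) 2).mul
      (isHomogeneous_X_pow 2 2)).C_mul (-2)).totalDegree_le
    omega
  · have e : sym (X 0 ^ 2 * X 1 ^ 2 * X 2 ^ 2 * X 3 ^ 2) = H.MP_d26497_an.ps := by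
      ext z; simp [sym, H.MP_d26497_an.ps]
    rw [e]; exact H.MP_d26497_an.pos
  · have e : sym (X 0 ^ 2 * X 1 ^ 2 * X 2 ^ 2 * X 3 ^ 2 + C (-2) * (X 0 ^ 2 * X 2 ^ 2)) =
        fun z => H.MP_d26497_an.ps z + -2 * (z.1 ^ 2 * (conj z.1) ^ 2) := by
      ext z; simp [sym, H.MP_d26497_an.ps]
    rw [e]; exact H.MP_d26497_an.neg

end Pool.Agent.Results.MP_d26497_an.Counter
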